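import Pool.Agent.helper60.DB.SpecC

namespace Pool.Agent.helper60.DB

open Polynomial Finset

theorem CO (hIT : IT_stmt) : CO_stmt := by
  intro R _ h2 A B A' B' π y w g u y' w' m hy hwy hy' hwy' hml
  have hψ0 : PowerSeries.constantCoeff (PowerSeries.X * g ^ 2) = 0 := by
    simp
  obtain ⟨r, hr⟩ := hIT R h2 A' B' y' w' (PowerSeries.X * g ^ 2) u m hy' hwy' hψ0 hml.cu hml.cur
  set T : PowerSeries R := ∑ j ∈ range (m + 1),
    PowerSeries.C (PowerSeries.coeff j w') * (PowerSeries.X * g ^ 2) ^ j with hT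
  have h1 : g + EE g = PowerSeries.C π * (w * u) := by
    calc g + EE g = (w * y) * (g + EE g) := by rw [hwy, one_mul]
      _ = w * (y * (g + EE g)) := by ring
      _ = w * (PowerSeries.C π * u) := by rw [hml.ode]
      _ = PowerSeries.C π * (w * u) := by ring
  have h3 : (g + EE g) * T = PowerSeries.C π * (w + PowerSeries.X ^ (m + 1) * (w * r)) := by
    calc (g + EE g) * T = PowerSeries.C π * (w * (u * T)) := by rw [h1]; ring
      _ = PowerSeries.C π * (w * (1 + PowerSeries.X ^ (m + 1) * r)) := by rw [hr]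
      _ = PowerSeries.C π * (w + PowerSeries.X ^ (m + 1) * (w * r)) := by ring
  have h4 : PowerSeries.coeff m ((g + EE g) * T) = π * PowerSeries.coeff m w := by
    rw [h3, PowerSeries.coeff_C_mul, map_add, PowerSeries.coeff_X_pow_mul', if_neg (by omega),
      add_zero]
  rw [← h4, hT, Finset.mul_sum, map_sum]
  refine Finset.sum_congr rfl fun j _ => ?_
  have h5 : (g + EE g) * (PowerSeries.C (PowerSeries.coeff j w') * (PowerSeries.X * g ^ 2) ^ j)
      = PowerSeries.C (PowerSeries.coeff j w') * (PowerSeries.X ^ j * g ^ (2 * j) * (g + EE g)) := by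
    rw [mul_pow, ← pow_mul]; ring
  rw [h5, PowerSeries.coeff_C_mul]

end Pool.Agent.helper60.DB
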